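import Pool.Agent.Y762.GA.Main

set_option autoImplicit false

/-!
# MP_3ed42e_nt: which affine subspaces are of Groshev type

Let `d, m ≥ 1`, `n = d + m` and let `A` be a real `(d + 1) × m` matrix.  The affine subspace
`L_A = {(x, x̃ A)}` of `ℝ ^ n` is of Groshev type if and only if `|q| ^ n ‖A q‖` is bounded away
from zero over the nonzero integer vectors `q`; the same criterion decides the Groshev type for
convergence alone.  The criterion holds if `ω(A) < n` (the question), fails if `ω(A) > n` and
decides all subspaces with the critical exponent `ω(A) = n`.

Outline.  If `‖A q‖ ≥ c |q| ^ (- n)` then the union bound still gives the convergence half.  For the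
divergence half the forms of small slope are not negligible any more: the points at which a form with
`|z| ≤ ε 2 ^ t` takes a value below `ε 2 ^ (- t n)` form a set `U_t` of small but positive
measure, and a small ball may lie inside `U_t`.  Outside `U_t` a pigeonhole argument gives a
form of large slope.  A weak type maximal inequality and a weighted form of Fatou's lemma show that
for almost every point `x₀` the levels `t` at which all small balls around `x₀` are half outside `U_t`
still carry a divergent part of the series; along these levels the second moment method gives a fixed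
proportion of every small ball around `x₀`, and Lebesgue's density theorem finishes the proof.
Conversely, if `|q| ^ n ‖A q‖` is not bounded below, a step function `ψ` with convergent series is
constructed such that every point of `L_A` near the origin is in `W_n(ψ)`.
-/

namespace Pool.Agent.Results.MP_3ed42e_nt.GroshevCriterion

open Pool.Agent.H639R3.G

/-- Let `d, m ≥ 1`, `n = d + m` and let `A` be a real `(d + 1) × m` matrix.
(1) `L_A` is of Groshev type (for convergence and for divergence) if and only if
`|q| ^ n * ‖A qᵀ‖ ≥ c` for some `c > 0` and all nonzero integer vectors `q`.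
(2) The same condition is equivalent to the Groshev type for convergence alone.
(3) It holds if `ω(A) < n`. (4) It fails if `ω(A) > n`. -/
theorem result (d m : ℕ) (hd : 1 ≤ d) (hm : 1 ≤ m) (A : Matrix (Fin (d + 1)) (Fin m) ℝ) :
    ((GroshevConvergence A ∧ GroshevDivergence A) ↔
      ∃ c : ℝ, 0 < c ∧ ∀ q : Fin m → ℤ, q ≠ 0 →
        c ≤ (supNorm q : ℝ) ^ (d + m) * distIntVec (ev A q)) ∧
    (GroshevConvergence A ↔
      ∃ c : ℝ, 0 < c ∧ ∀ q : Fin m → ℤ, q ≠ 0 →
        c ≤ (supNorm q : ℝ) ^ (d + m) * distIntVec (ev A q)) ∧
    (exponent A < ((d + m : ℕ) : EReal) → GroshevConvergence A ∧ GroshevDivergence A) ∧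
    (((d + m : ℕ) : EReal) < exponent A → ¬ GroshevConvergence A) := by
  have h1 := Pool.Agent.Y762.GA.convergence_iff (m := m) hd hm (A := A)
  have h2 := Pool.Agent.Y762.GA.divergence_of_low (m := m) hd hm (A := A)
  refine ⟨⟨fun h => h1.1 h.1, fun h => ⟨h1.2 h, h2 h⟩⟩, h1, fun h => ?_, fun h hc => ?_⟩
  · have h3 := Pool.Agent.Y762.GA.low_of_exponent_lt hd h
    exact ⟨h1.2 h3, h2 h3⟩
  · exact Pool.Agent.Y762.GA.not_low_of_lt_exponent h (h1.1 hc)

end Pool.Agent.Results.MP_3ed42e_nt.GroshevCriterion
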